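import Pool.Agent.MVO.StmtsE

/-!
# MVO, row ALB: all types can be adjusted (author helper81)
-/

set_option autoImplicit false

open Pool.Agent.Helper14_MV Pool.Agent.Helper2_MV

namespace Pool.Agent.MVO.H81

theorem deg_pos {k : ℕ} {a : ℕ → ℕ} {j : ℕ} (hj : j ≤ k) (h : 1 ≤ a j) : 1 ≤ deg k a := by
  unfold deg
  exact h.trans (Finset.single_le_sum (f := a) (fun i _ => Nat.zero_le _)
    (Finset.mem_range.2 (Nat.lt_succ_of_le hj)))

theorem deg_congr {k : ℕ} {a b : ℕ → ℕ} (h : ∀ j ≤ k, a j = b j) : deg k a = deg k b := by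
  unfold deg
  exact Finset.sum_congr rfl fun j hj => h j (Nat.lt_succ_iff.1 (Finset.mem_range.1 hj))

theorem deg_zero {k : ℕ} {a : ℕ → ℕ} (h : deg k a = 0) {j : ℕ} (hj : j ≤ k) : a j = 0 := by
  by_contra hne
  have := deg_pos hj (Nat.one_le_iff_ne_zero.2 hne)
  omega

/-- a letter which occurs has degree at least two -/
theorem two_le {k : ℕ} {B : ℕ → List ℕ} (hB : AMul k B) {c : ℕ}
    (h : 1 ≤ deg k (fun j => (B j).count c)) : 2 ≤ deg k (fun j => (B j).count c) := by
  by_contra hlt
  have h1 : ∀ j ≤ k, (B j).count c = 0 := by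
    intro j hj
    by_contra hne
    exact hlt (hB j hj c (List.count_pos_iff.1 (Nat.pos_of_ne_zero hne)))
  have h2 : deg k (fun j => (B j).count c) = 0 := by
    unfold deg
    exact Finset.sum_eq_zero fun j hj => h1 j (Nat.lt_succ_iff.1 (Finset.mem_range.1 hj))
  omega

theorem alb (hALT : AltStmt) (hSMD : SmdStmt) : AlbStmt := by
  intro ω hcc hE hA hAd k B B' hB hB' hmul hdeg hL1
  have key : ∀ Y : List ℕ, (∀ c ∈ Y, NS k c) → ∃ B1 : ℕ → List ℕ, BlkOk k B1 ∧
      RR ω (asm k B) (asm k B1) ∧ (∀ j ≤ k, ∀ c ∈ Y, (B1 j).count c = (B' j).count c) ∧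
      (∀ j ≤ k, ∀ c, c ∉ Y → (B1 j).count c = (B j).count c) := by
    intro Y
    induction Y with
    | nil =>
      intro _
      exact ⟨B, hB, RR.refl _, fun j _ c hc => absurd hc (List.not_mem_nil), fun j _ c _ => rfl⟩
    | cons c Y ih =>
      intro hY
      obtain ⟨B1, hB1, hR, h1, h2⟩ := ih fun d hd => hY d (List.mem_cons_of_mem _ hd)
      by_cases hcY : c ∈ Y
      · refine ⟨B1, hB1, hR, fun j hj d hd => ?_, fun j hj d hd => ?_⟩
        · rcases List.mem_cons.1 hd with h | h
          · rw [h]
            exact h1 j hj c hcY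
          · exact h1 j hj d h
        · exact h2 j hj d fun h => hd (List.mem_cons_of_mem _ h)
      -- the counts of `c` in `B1` agree with those of the new blocks
      have same : (∀ j ≤ k, (B1 j).count c = (B' j).count c) → ∃ B1 : ℕ → List ℕ, BlkOk k B1 ∧
          RR ω (asm k B) (asm k B1) ∧
          (∀ j ≤ k, ∀ d ∈ c :: Y, (B1 j).count d = (B' j).count d) ∧
          (∀ j ≤ k, ∀ d, d ∉ c :: Y → (B1 j).count d = (B j).count d) := by
        intro h
        refine ⟨B1, hB1, hR, fun j hj d hd => ?_, fun j hj d hd => ?_⟩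
        · rcases List.mem_cons.1 hd with h' | h'
          · rw [h']
            exact h j hj
          · exact h1 j hj d h'
        · exact h2 j hj d fun h => hd (List.mem_cons_of_mem _ h)
      have hc1 : ∀ j ≤ k, (B1 j).count c = (B j).count c := fun j hj => h2 j hj c hcY
      have hd1 : deg k (fun j => (B1 j).count c) = deg k (fun j => (B j).count c) :=
        deg_congr hc1
      have hns : NS k c := hY c List.mem_cons_self
      rcases Nat.lt_or_ge (deg k (fun j => (B j).count c)) 3 with hlt | hge
      · apply same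
        rcases Nat.eq_zero_or_pos (deg k (fun j => (B j).count c)) with h0 | hpos
        · intro j hj
          rw [hc1 j hj]
          have h3 := deg_zero h0 hj
          have h4 := deg_zero ((hdeg c).symm.trans h0) hj
          rw [h3, h4]
        · have h3 := two_le hmul hpos
          have h4 := hSMD ω hA hAd k (fun j => (B j).count c) (fun j => (B' j).count c) (by omega)
            (by rw [← hdeg c]; omega) (hL1 c hns)
          intro j hj
          rw [hc1 j hj]
          exact h4 j hj
      · -- every degree of `B1` is the degree of `B`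
        have hdd : ∀ d, deg k (fun j => (B1 j).count d) = deg k (fun j => (B j).count d) := by
          intro d
          by_cases hdY : d ∈ Y
          · rw [hdeg d]
            exact deg_congr fun j hj => h1 j hj d hdY
          · exact deg_congr fun j hj => h2 j hj d hdY
        have hmul1 : AMul k B1 := by
          intro j hj d hd
          rw [hdd d]
          apply two_le hmul
          rw [← hdd d]
          exact deg_pos (a := fun j => (B1 j).count d) hj (List.count_pos_iff.2 hd)
        have hL : L1 ω k (fun j => (B1 j).count c) (fun j => (B' j).count c) :=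
          (FC.ofFIC ω).ext (fun j hj => (hc1 j hj).symm) (fun j _ => rfl) (hL1 c hns)
        obtain ⟨B2, hB2, hR2, h3, h4⟩ := hALT ω hcc hE k B1 c (fun j => (B' j).count c) hB1 hmul1
          hns (by rw [hd1]; exact hge) hL
        have h5 : ∀ j ≤ k, ∀ d, d ≠ c → (B2 j).count d = (B1 j).count d := by
          intro j hj d hdc
          have h6 := congrArg (List.count d) (h4 j hj)
          rw [List.count_filter (by simpa using hdc), List.count_filter (by simpa using hdc)] at h6
          exact h6
        refine ⟨B2, hB2, ω.trans hR hR2, fun j hj d hd => ?_, fun j hj d hd => ?_⟩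
        · rcases List.mem_cons.1 hd with h | h
          · rw [h]
            exact h3 j hj
          · rw [h5 j hj d (fun hdc => hcY (hdc ▸ h))]
            exact h1 j hj d h
        · rw [h5 j hj d (fun hdc => hd (by rw [hdc]; exact List.mem_cons_self))]
          exact h2 j hj d fun h => hd (List.mem_cons_of_mem _ h)
  obtain ⟨B1, hB1, hR, h1, h2⟩ := key ((List.range (k + 1)).flatMap B) (by
    intro c hc
    obtain ⟨j, hj, hcj⟩ := List.mem_flatMap.1 hc
    exact hB j (Nat.lt_succ_iff.1 (List.mem_range.1 hj)) c hcj)
  refine ⟨B1, hB1, hR, fun j hj c => ?_⟩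
  by_cases hc : c ∈ (List.range (k + 1)).flatMap B
  · exact h1 j hj c hc
  · rw [h2 j hj c hc]
    have h3 : ∀ i ≤ k, (B i).count c = 0 := by
      intro i hi
      apply List.count_eq_zero_of_not_mem
      intro h
      exact hc (List.mem_flatMap.2 ⟨i, List.mem_range.2 (Nat.lt_succ_of_le hi), h⟩)
    have h4 : deg k (fun j => (B j).count c) = 0 := by
      unfold deg
      exact Finset.sum_eq_zero fun i hi => h3 i (Nat.lt_succ_iff.1 (Finset.mem_range.1 hi))
    have h5 := deg_zero ((hdeg c).symm.trans h4) hj
    rw [h3 j hj, h5]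

end Pool.Agent.MVO.H81
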