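import Pool.Agent.MVO.StmtsV

/-!
# MVO, row FV7: local types in class Va (author helper81)
-/

set_option autoImplicit false

open Pool.Agent.Helper14_MV Pool.Agent.Helper2_MV

namespace Pool.Agent.MVO.H81

theorem psh_v2 (p d t j : ℕ) : psh 1 (fun j => p + j) (v2 d t) j =
    (if p = j then d else 0) + (if p + 1 = j then t else 0) := by
  rw [psh, Finset.sum_range_succ, Finset.sum_range_one]
  rfl

theorem deg_sg {k p : ℕ} (hp : p ≤ k) (d : ℕ) : deg k (sg p d) = d := by
  unfold deg sg
  rw [Finset.sum_ite_eq' (Finset.range (k + 1)) p (fun _ => d),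
    if_pos (Finset.mem_range.2 (by omega))]

theorem fv7 (hFV1 : Fv1Stmt) (hFV6 : Fv6Stmt) : Fv7Stmt := by
  intro ρ hρ k p d s t b i hp hi hd hst ht hb hL
  by_cases hip : i = p
  · subst hip
    have hmap : BMap 1 (k + 1) (fun j => i + j) := ⟨fun a b hab _ => by omega, fun j hj => by omega⟩
    have h1 := (FC.ofFIC ρ).push (k + 1) (fun j => i + j) hmap hL
    have h2 : L1 ρ (k + 1) (spl i (sg i d)) (psh 1 (fun j => i + j) (v2 s t)) := by
      refine (FC.ofFIC ρ).ext (fun j _ => ?_) (fun j _ => rfl) h1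
      rw [psh_v2]
      unfold spl sg
      split_ifs <;> omega
    have hdeg : deg (k + 1) (psh 1 (fun j => i + j) (v2 s t)) = d := by
      unfold deg
      rw [Finset.sum_congr rfl fun j _ => psh_v2 i s t j, Finset.sum_add_distrib,
        Finset.sum_ite_eq (Finset.range (k + 1 + 1)) i (fun _ => s),
        Finset.sum_ite_eq (Finset.range (k + 1 + 1)) (i + 1) (fun _ => t),
        if_pos (Finset.mem_range.2 (by omega)), if_pos (Finset.mem_range.2 (by omega))]
      exact hst
    refine hFV6 ρ hρ k i (sg i d) (psh 1 (fun j => i + j) (v2 s t)) b hi hb ?_ ?_ h2 ?_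
    · rw [deg_sg hi]
      exact hd
    · rw [hdeg]
      exact hd
    · rw [psh_v2]
      simp only [if_true]
      omega
  · apply (hFV1 ρ hρ).1
    · rw [deg_sg hp]
      exact hd
    · exact hb
    · exact hi
    · rintro ⟨_, h2, _⟩
      unfold sg at h2
      rw [if_neg hip] at h2
      omega

end Pool.Agent.MVO.H81
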