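import Pool.Agent.MVO.StmtsC

/-!
# MVO, row PWC: exchange of powers in class c1 (author helper81)
-/

set_option autoImplicit false

open Pool.Agent.Helper14_MV Pool.Agent.Helper2_MV

namespace Pool.Agent.MVO.H81

variable {β : FIC}

/-- one letter goes over a power -/
theorem one_over (x y : ℕ) : ∀ (b : ℕ) (P Q : List ℕ),
    (∀ j l, j + l + 1 = b →
      RR β ((P ++ List.replicate j y) ++ x :: y :: (List.replicate l y ++ Q))
        ((P ++ List.replicate j y) ++ y :: x :: (List.replicate l y ++ Q))) →
    RR β (P ++ x :: (List.replicate b y ++ Q)) (P ++ (List.replicate b y ++ x :: Q)) := by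
  intro b
  induction b with
  | zero =>
    intro P Q _
    exact RR.refl _
  | succ b ih =>
    intro P Q H
    have h1 := H 0 b (by omega)
    have h2 := ih (P ++ [y]) Q (fun j l hjl => by
      have h3 := H (j + 1) l (by omega)
      have e : P ++ List.replicate (j + 1) y = P ++ [y] ++ List.replicate j y := by
        rw [List.replicate_succ, List.append_assoc, List.singleton_append]
      rw [e] at h3
      exact h3)
    have h4 : RR β (P ++ x :: (List.replicate (b + 1) y ++ Q))
        (P ++ [y] ++ x :: (List.replicate b y ++ Q)) := by
      rw [List.replicate_succ, List.cons_append, List.append_assoc, List.singleton_append]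
      rw [List.replicate_zero, List.append_nil] at h1
      exact h1
    have e2 : P ++ (List.replicate (b + 1) y ++ x :: Q) =
        P ++ [y] ++ (List.replicate b y ++ x :: Q) := by
      rw [List.replicate_succ, List.cons_append, List.append_assoc, List.singleton_append]
    rw [e2]
    exact β.trans h4 h2

/-- a power goes over a block -/
theorem all_over (x : ℕ) (Y : List ℕ) : ∀ (a : ℕ) (P Q : List ℕ),
    (∀ i i', i + i' + 1 = a →
      RR β ((P ++ List.replicate i x) ++ x :: (Y ++ (List.replicate i' x ++ Q)))
        ((P ++ List.replicate i x) ++ (Y ++ x :: (List.replicate i' x ++ Q)))) →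
    RR β (P ++ (List.replicate a x ++ (Y ++ Q))) (P ++ (Y ++ (List.replicate a x ++ Q))) := by
  intro a
  induction a with
  | zero =>
    intro P Q _
    exact RR.refl _
  | succ a ih =>
    intro P Q H
    have h1 := H a 0 (by omega)
    have h2 := ih P (x :: Q) (fun i i' hi => by
      have h3 := H i (i' + 1) (by omega)
      have e : List.replicate (i' + 1) x ++ Q = List.replicate i' x ++ x :: Q := by
        rw [List.replicate_succ', List.append_assoc, List.singleton_append]
      rw [e] at h3
      exact h3)
    have e1 : P ++ (List.replicate (a + 1) x ++ (Y ++ Q)) =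
        (P ++ List.replicate a x) ++ x :: (Y ++ (List.replicate 0 x ++ Q)) := by
      rw [List.replicate_succ', List.replicate_zero, List.nil_append, List.append_assoc,
        List.append_assoc, List.singleton_append]
    have e2 : (P ++ List.replicate a x) ++ (Y ++ x :: (List.replicate 0 x ++ Q)) =
        P ++ (List.replicate a x ++ (Y ++ x :: Q)) := by
      rw [List.replicate_zero, List.nil_append, List.append_assoc]
    have e3 : P ++ (Y ++ (List.replicate (a + 1) x ++ Q)) =
        P ++ (Y ++ (List.replicate a x ++ x :: Q)) := by
      rw [List.replicate_succ', List.append_assoc, List.singleton_append]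
    rw [e1, e3]
    rw [e2] at h1
    exact β.trans h1 h2

/-- the exchange of powers if all single exchanges are in `β` -/
theorem single_over (x y a b : ℕ) (P Q : List ℕ)
    (H : ∀ i i' j l, i + i' + 1 = a → j + l + 1 = b →
      RR β ((P ++ List.replicate i x ++ List.replicate j y) ++ x :: y ::
          (List.replicate l y ++ (List.replicate i' x ++ Q)))
        ((P ++ List.replicate i x ++ List.replicate j y) ++ y :: x ::
          (List.replicate l y ++ (List.replicate i' x ++ Q)))) :
    RR β (P ++ (List.replicate a x ++ (List.replicate b y ++ Q)))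
      (P ++ (List.replicate b y ++ (List.replicate a x ++ Q))) :=
  all_over x (List.replicate b y) a P Q fun i i' hi =>
    one_over x y b (P ++ List.replicate i x) (List.replicate i' x ++ Q) fun j l hj =>
      H i i' j l hi hj

/-- case (3) -/
theorem case3 (hAPC : ApcStmt) (hβ : ClC1 β) {x y a b : ℕ} {P Q : List ℕ} (hx : x ∈ P)
    (hb : 2 ≤ b) :
    RR β (P ++ (List.replicate a x ++ (List.replicate b y ++ Q)))
      (P ++ (List.replicate b y ++ (List.replicate a x ++ Q))) :=
  all_over x (List.replicate b y) a P Q fun i i' _ => by
    have h := hAPC β hβ (P ++ List.replicate i x) (List.replicate i' x ++ Q) x y b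
      (List.mem_append_left _ hx) hb
    rw [List.append_assoc (P ++ List.replicate i x) (List.replicate b y)] at h
    exact h

theorem pwc (hSGC : SgcStmt) (hAPC : ApcStmt) : PwcStmt := by
  intro β hβ p q x y a b w hw hcase
  have hcc := hβ.cc
  have hw' : w = p ++ (List.replicate a x ++ (List.replicate b y ++ q)) := by
    rw [hw, List.append_assoc, List.append_assoc]
  have e0 : p ++ List.replicate b y ++ List.replicate a x ++ q =
      p ++ (List.replicate b y ++ (List.replicate a x ++ q)) := by
    rw [List.append_assoc, List.append_assoc]
  rw [e0]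
  rw [hw']
  rcases hcase with h | h | h | h | h | h | h | h | h
  · obtain ⟨hx, hy⟩ := h
    exact single_over x y a b p q fun i i' j l _ _ => (hSGC β hcc _ _ x y).1
      (List.mem_append_left _ (List.mem_append_left _ hx))
      (List.mem_append_right _ (List.mem_append_right _ hy))
  · obtain ⟨hy, hx⟩ := h
    exact single_over x y a b p q fun i i' j l _ _ => RR.symm ((hSGC β hcc _ _ y x).1
      (List.mem_append_left _ (List.mem_append_left _ hy))
      (List.mem_append_right _ (List.mem_append_right _ hx)))
  · exact case3 hAPC hβ h.1 h.2
  · exact RR.symm (case3 hAPC hβ h.1 h.2)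
  · obtain ⟨ha, hb⟩ := h
    obtain ⟨a', rfl⟩ : ∃ a', a = a' + 1 := ⟨a - 1, by omega⟩
    obtain ⟨a'', rfl⟩ : ∃ a'', a' = a'' + 1 := ⟨a' - 1, by omega⟩
    obtain ⟨b', rfl⟩ : ∃ b', b = b' + 2 := ⟨b - 2, by omega⟩
    have h1 : RR β (p ++ [x] ++ (List.replicate (a'' + 1) x ++ (List.replicate (b' + 2) y ++ q)))
        (p ++ [x] ++ (List.replicate (b' + 2) y ++ (List.replicate (a'' + 1) x ++ q))) :=
      case3 hAPC hβ (List.mem_append_right _ (List.mem_singleton.2 rfl)) (by omega)
    have h2 : RR β (p ++ x :: (List.replicate (b' + 2) y ++ (List.replicate (a'' + 1) x ++ q)))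
        (p ++ (List.replicate (b' + 2) y ++ x :: (List.replicate (a'' + 1) x ++ q))) := by
      apply one_over
      intro j l hjl
      rcases Nat.eq_zero_or_pos j with rfl | hj
      · obtain rfl : l = b' + 1 := by omega
        apply (hSGC β hcc _ _ x y).2.1
        right
        refine ⟨[], List.replicate b' y, List.replicate a'' x ++ q, ?_, ?_⟩
        · rw [List.replicate_succ, List.replicate_succ]
          rfl
        · intro z hz
          rw [List.eq_of_mem_replicate hz]
          simp only [List.count_append, List.count_cons_self, List.count_cons,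
            List.count_replicate_self]
          split_ifs <;> omega
      · refine RR.symm ((hSGC β hcc _ _ y x).1 ?_ ?_)
        · exact List.mem_append_right _ (List.mem_replicate.2 ⟨by omega, rfl⟩)
        · exact List.mem_append_right _ (List.mem_append_left _
            (List.mem_replicate.2 ⟨by omega, rfl⟩))
    have e1 : p ++ (List.replicate (a'' + 1 + 1) x ++ (List.replicate (b' + 2) y ++ q)) =
        p ++ [x] ++ (List.replicate (a'' + 1) x ++ (List.replicate (b' + 2) y ++ q)) := by
      rw [List.replicate_succ (n := a'' + 1), List.cons_append, List.append_assoc,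
        List.singleton_append]
    have e2 : p ++ [x] ++ (List.replicate (b' + 2) y ++ (List.replicate (a'' + 1) x ++ q)) =
        p ++ x :: (List.replicate (b' + 2) y ++ (List.replicate (a'' + 1) x ++ q)) := by
      rw [List.append_assoc, List.singleton_append]
    have e3 : p ++ (List.replicate (b' + 2) y ++ x :: (List.replicate (a'' + 1) x ++ q)) =
        p ++ (List.replicate (b' + 2) y ++ (List.replicate (a'' + 1 + 1) x ++ q)) := by
      rw [List.replicate_succ (n := a'' + 1), List.cons_append]
    rw [e2] at h1
    rw [e3] at h2
    rw [e1]
    exact β.trans h1 h2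
  all_goals
    refine single_over x y a b p q fun i i' j l hi hj => ?_
    have hcount : ∀ z, w.count z = ((p ++ List.replicate i x ++ List.replicate j y) ++ x :: y ::
        (List.replicate l y ++ (List.replicate i' x ++ q))).count z := by
      intro z
      rw [hw', ← hi, ← hj]
      simp only [List.count_append, List.count_cons, List.count_replicate]
      split_ifs <;> omega
    obtain ⟨l1, c, l2, hl, hc⟩ := h
  · apply (hSGC β hcc _ _ x y).2.2
    left
    refine ⟨l1, c, l2 ++ (List.replicate i x ++ List.replicate j y), ?_, ?_⟩
    · rw [hl]
      simp only [List.append_assoc, List.cons_append]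
    · intro z hz
      rw [← hcount]
      exact hc z hz
  · apply (hSGC β hcc _ _ x y).2.2
    right
    refine ⟨l1, c, l2 ++ (List.replicate i x ++ List.replicate j y), ?_, ?_⟩
    · rw [hl]
      simp only [List.append_assoc, List.cons_append]
    · intro z hz
      rw [← hcount]
      exact hc z hz
  · apply (hSGC β hcc _ _ x y).2.1
    left
    refine ⟨List.replicate l y ++ (List.replicate i' x ++ l1), c, l2, ?_, ?_⟩
    · rw [hl]
      simp only [List.append_assoc]
    · intro z hz
      rw [← hcount]
      exact hc z hz
  · apply (hSGC β hcc _ _ x y).2.1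
    right
    refine ⟨List.replicate l y ++ (List.replicate i' x ++ l1), c, l2, ?_, ?_⟩
    · rw [hl]
      simp only [List.append_assoc]
    · intro z hz
      rw [← hcount]
      exact hc z hz

end Pool.Agent.MVO.H81
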