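import Pool.Agent.MVO.StmtsC

/-!
# MVO, row SFC: sufficiency for class c1 (author helper81)
-/

set_option autoImplicit false

open Pool.Agent.Helper14_MV Pool.Agent.Helper2_MV

namespace Pool.Agent.MVO.H81

/-- class c1 is inherited by larger congruences -/
theorem clC1_mono {β ρ : FIC} (h : β ≤ ρ) (hβ : ClC1 β) : ClC1 ρ := by
  have hr : ∀ l l' : List ℕ, RR β l l' → RR ρ l l' := fun l l' hl => h _ _ hl
  obtain ⟨⟨h1, h2, h3⟩, h4⟩ := hβ
  exact ⟨⟨hr _ _ h1, fun p q c r x y hm => hr _ _ (h2 p q c r x y hm),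
    fun p q c r x y hm => hr _ _ (h3 p q c r x y hm)⟩, hr _ _ h4⟩

theorem sfc (hSUF : SufStmt) (hOLW : OlwStmt) (hWUW : WuwStmt) (hGAC : GacStmt) (hRGC : RgcStmt)
    (hSWC : SwcStmt) (hTCA : TcaStmt) (hTCB : TcbStmt) (hTCC : TccStmt) (hTCD : TcdStmt) :
    SfcStmt := by
  intro β hβ hG
  obtain ⟨hc, h⟩ := hG
  have hO : OO β := by
    rcases h with h | h | h | h
    · exact Or.inl h.1
    · exact Or.inr (Or.inl h.1)
    · exact Or.inr (Or.inr (Or.inl h.1))
    · exact Or.inr (Or.inr (Or.inr h))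
  have hT : Tight β := by
    intro ρ hle _
    have hρ := clC1_mono hle hβ
    rcases h with h | h | h | h
    · exact hTCA β ρ hle hρ h.1 h.2
    · exact hTCB β ρ hle hρ h.1 h.2
    · exact hTCC β ρ hle hρ h.1 h.2
    · exact hTCD β ρ hle hρ h
  exact hSUF β (hGAC β hβ) (hRGC β hβ) (hSWC β hβ) hT (hOLW β hO) (hWUW β hO hc (hGAC β hβ))

end Pool.Agent.MVO.H81
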