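import Pool.Agent.MVO.StmtsV

/-!
# MVO, row SFV: sufficiency for class Va (author helper81)
-/

set_option autoImplicit false

open Pool.Agent.Helper14_MV Pool.Agent.Helper2_MV

namespace Pool.Agent.MVO.H81

theorem sfv (hSUF : SufStmt) (hOLW : OlwStmt) (hWUW : WuwStmt) (hGAV : GavStmt) (hRGV : RgvStmt)
    (hSWV : SwvStmt) (hTVA : TvaStmt) (hTVB : TvbStmt) (hTVC : TvcStmt) (hTVD : TvdStmt) :
    SfvStmt := by
  intro β hβ hG
  obtain ⟨hc, h⟩ := hG
  have hO : OO β := by
    rcases h with h | h | h | h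
    · exact Or.inl h.1
    · exact Or.inr (Or.inl h.1)
    · exact Or.inr (Or.inr (Or.inl h.1))
    · exact Or.inr (Or.inr (Or.inr h))
  have hT : Tight β := by
    rcases h with h | h | h | h
    · exact hTVA β hβ h.1 h.2
    · exact hTVB β hβ h.1 h.2
    · exact hTVC β hβ h.1 h.2
    · exact hTVD β hβ h
  exact hSUF β (hGAV β hβ.1) (hRGV β hβ) (hSWV β hβ) hT (hOLW β hO) (hWUW β hO hc (hGAV β hβ.1))

end Pool.Agent.MVO.H81
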